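import Pool.Agent.VP.JA4

/-!
# The first `n` of `N ≥ n` Gaussian vectors are almost surely linearly independent
-/

set_option autoImplicit false
open MeasureTheory ProbabilityTheory
open scoped ENNReal Matrix

namespace Pool.Agent.Y507.Gauss

theorem det_first_vol (n N : ℕ) (hN : n ≤ N) :
    ∀ᵐ G : Fin N → Fin n → ℝ ∂(volume : Measure (Fin N → Fin n → ℝ)),
      (Matrix.of fun i : Fin n => G (Fin.castLE hN i)).det ≠ 0 := by
  let L : ℝ →ₗ[ℝ] (Fin N → Fin n → ℝ) :=
    LinearMap.toSpanSingleton ℝ (Fin N → Fin n → ℝ)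
      (fun i j => if (i : ℕ) = (j : ℕ) then (1 : ℝ) else 0)
  have hs : MeasurableSet {G : Fin N → Fin n → ℝ |
      (Matrix.of fun i : Fin n => G (Fin.castLE hN i)).det ≠ 0} := by
    have hc : Continuous fun G : Fin N → Fin n → ℝ =>
        (Matrix.of fun i : Fin n => G (Fin.castLE hN i)).det := by
      apply Continuous.matrix_det
      refine continuous_pi fun i => continuous_pi fun j => ?_
      exact (continuous_apply j).comp (continuous_apply (Fin.castLE hN i))
    exact (hc.measurable (measurableSet_singleton 0)).compl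
  refine ae_mem_of_ae_add_linearMap_mem L (volume : Measure ℝ) volume hs ?_
  intro G
  set A : Matrix (Fin n) (Fin n) ℝ := Matrix.of fun i : Fin n => G (Fin.castLE hN i) with hA
  have hfin : {t : ℝ | ((-A).charpoly).eval t = 0}.Finite := by
    have hne : (-A).charpoly ≠ 0 := (Matrix.charpoly_monic _).ne_zero
    refine Set.Finite.subset (Multiset.finite_toSet ((-A).charpoly.roots)) ?_
    intro t ht
    exact (Polynomial.mem_roots hne).2 ht
  have h0 : volume {t : ℝ | ((-A).charpoly).eval t = 0} = 0 :=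
    hfin.measure_zero volume
  have h1 : ∀ᵐ t : ℝ, ((-A).charpoly).eval t ≠ 0 := by
    rw [ae_iff]
    simpa using h0
  filter_upwards [h1] with t ht
  rw [Matrix.eval_charpoly] at ht
  have h2 : Matrix.scalar (Fin n) t - -A =
      Matrix.of fun i : Fin n => (G + L t) (Fin.castLE hN i) := by
    ext i j
    simp only [L, hA, LinearMap.toSpanSingleton_apply, Matrix.scalar_apply, Matrix.of_apply,
      Pi.add_apply, Pi.smul_apply, smul_eq_mul, Matrix.sub_apply, Matrix.neg_apply,
      sub_neg_eq_add, Matrix.diagonal_apply, Fin.val_castLE, Fin.ext_iff]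
    split_ifs <;> ring
  rw [h2] at ht
  exact ht

theorem det_first_ae (n N : ℕ) (hN : n ≤ N) :
    ∀ᵐ G : Fin N → Fin n → ℝ
      ∂(Measure.pi (fun _ : Fin N => Measure.pi (fun _ : Fin n => gaussianReal 0 1))),
      (Matrix.of fun i : Fin n => G (Fin.castLE hN i)).det ≠ 0 := by
  have h1 : gaussianReal 0 1 ≪ (volume : Measure ℝ) :=
    gaussianReal_absolutelyContinuous 0 one_ne_zero
  have h2 := VP.A4.pi_ac480 _ _ (VP.A4.pi_ac480 _ _ h1 n) N
  exact h2.ae_le (det_first_vol n N hN)

end Pool.Agent.Y507.Gauss
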